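import Pool.Agent.H59.LIN.Targets

/-! CMA: the components of a word with removed letters. -/

set_option autoImplicit false

open Finset Polynomial

namespace Pool.Agent.H68.LIN

open Pool.Agent.H59.LIN

/-- two relations with the same number of classes -/
lemma ncl_eq {α β : Type} {f : α → α} {g : β → β} (i : β → α) (r : α → β)
    (h1 : ∀ x, Quot.mk (fun x y => y = g x) (r (f x)) = Quot.mk (fun x y => y = g x) (r x))
    (h2 : ∀ p, Quot.mk (fun x y => y = f x) (i (g p)) = Quot.mk (fun x y => y = f x) (i p))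
    (h3 : ∀ p, Quot.mk (fun x y => y = g x) (r (i p)) = Quot.mk (fun x y => y = g x) p)
    (h4 : ∀ x, Quot.mk (fun x y => y = f x) (i (r x)) = Quot.mk (fun x y => y = f x) x) :
    ncl f = ncl g := by
  unfold ncl
  refine Nat.card_congr
    { toFun := Quot.lift (fun x => Quot.mk (fun x y => y = g x) (r x)) ?_
      invFun := Quot.lift (fun p => Quot.mk (fun x y => y = f x) (i p)) ?_
      left_inv := ?_
      right_inv := ?_ }
  · rintro x _ rfl
    exact (h1 x).symm
  · rintro p _ rfl
    exact (h2 p).symm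
  · rintro ⟨x⟩
    exact h4 x
  · rintro ⟨p⟩
    exact h3 p

variable {n : ℕ} {β : Type}

lemma run_step (w : List (Fin n × β)) (B : Finset ℕ) (k : ℕ) (h : k < w.length)
    (p : Fin (n + 1)) : run (rmv B k (w.drop k)) p =
      run (rmv B (k + 1) (w.drop (k + 1))) (if k ∈ B then p else tr (w.get ⟨k, h⟩).1 p) := by
  rw [List.drop_eq_getElem_cons h, rmv]
  by_cases hk : k ∈ B
  · rw [if_pos hk, if_pos hk]
  · rw [if_neg hk, if_neg hk, run]
    rfl

theorem pf_CMA : Pool.Agent.H59.LIN.T_CMA := by
  intro n w B hw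
  obtain ⟨m, hm⟩ : ∃ m, w.length = m + 1 := by
    cases w with
    | nil => exact absurd rfl hw
    | cons x w' => exact ⟨w'.length, rfl⟩
  have h0 : 0 < w.length := by omega
  -- the rotation
  have hrot : ∀ (k : ℕ) (hk : k < w.length), ((finRotate w.length ⟨k, hk⟩ : Fin w.length) : ℕ) =
      if k + 1 < w.length then k + 1 else 0 := by
    rw [hm]
    intro k hk
    split_ifs with h
    · rw [finRotate_of_lt (by omega)]
    · have hkm : k = m := by omega
      subst hkm
      have := @finRotate_last k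
      have h2 : (⟨k, hk⟩ : Fin (k + 1)) = Fin.last k := rfl
      rw [h2, this]
      rfl
  set r : Fin w.length × Fin (n + 1) → Fin (n + 1) := fun x =>
    run (rmv B (x.1 : ℕ) (w.drop (x.1 : ℕ))) x.2 with hr
  set i : Fin (n + 1) → Fin w.length × Fin (n + 1) := fun p => (⟨0, h0⟩, p) with hi
  set g : Fin (n + 1) → Fin (n + 1) := run (rmv B 0 w) with hg
  have hri : ∀ p, r (i p) = g p := fun p => by
    rw [hr, hi, hg]
    simp
  have hgq : ∀ p, Quot.mk (fun x y => y = g x) (g p) = Quot.mk (fun x y => y = g x) p := fun p =>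
    (Quot.sound (r := fun x y => y = g x) (show g p = g p from rfl)).symm
  have hfq : ∀ x, Quot.mk (fun x y => y = stp w B x) (stp w B x) =
      Quot.mk (fun x y => y = stp w B x) x := fun x =>
    (Quot.sound (r := fun x y => y = stp w B x) (show stp w B x = stp w B x from rfl)).symm
  -- the step
  have hs : ∀ (k : ℕ) (hk : k < w.length) (p : Fin (n + 1)),
      (k + 1 < w.length → ∃ hk' : k + 1 < w.length, ∃ p', stp w B (⟨k, hk⟩, p) = (⟨k + 1, hk'⟩, p')
        ∧ r (⟨k, hk⟩, p) = r (⟨k + 1, hk'⟩, p')) ∧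
      (¬ k + 1 < w.length → stp w B (⟨k, hk⟩, p) = i (r (⟨k, hk⟩, p))) := by
    intro k hk p
    have h1 := run_step w B k hk p
    refine ⟨fun h => ⟨h, if k ∈ B then p else tr (w.get ⟨k, hk⟩).1 p, ?_, ?_⟩, fun h => ?_⟩
    · unfold stp
      refine Prod.ext ?_ rfl
      refine Fin.ext ?_
      simp only
      rw [hrot k hk, if_pos h]
    · rw [hr]
      exact h1
    · have h2 : w.drop (k + 1) = [] := List.drop_eq_nil_of_le (by omega)
      have h3 : r (⟨k, hk⟩, p) = if k ∈ B then p else tr (w.get ⟨k, hk⟩).1 p := by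
        rw [hr]
        simp only
        rw [h1, h2, rmv, run]
      rw [h3, hi]
      unfold stp
      refine Prod.ext ?_ rfl
      refine Fin.ext ?_
      simp only
      rw [hrot k hk, if_neg h]
  have h4 : ∀ x, Quot.mk (fun x y => y = stp w B x) (i (r x)) =
      Quot.mk (fun x y => y = stp w B x) x := by
    have key : ∀ (j k : ℕ) (hk : k < w.length) (p : Fin (n + 1)), w.length - k = j →
        Quot.mk (fun x y => y = stp w B x) (i (r (⟨k, hk⟩, p))) =
        Quot.mk (fun x y => y = stp w B x) (⟨k, hk⟩, p) := by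
      intro j
      induction j with
      | zero => intro k hk p h; omega
      | succ j ih =>
        intro k hk p h
        by_cases hk' : k + 1 < w.length
        · obtain ⟨hk2, p', h1, h2⟩ := (hs k hk p).1 hk'
          rw [h2, ih (k + 1) hk2 p' (by omega), ← h1, hfq]
        · rw [← (hs k hk p).2 hk', hfq]
    rintro ⟨⟨k, hk⟩, p⟩
    exact key _ k hk p rfl
  refine ncl_eq i r ?_ ?_ ?_ h4
  · rintro ⟨⟨k, hk⟩, p⟩
    by_cases hk' : k + 1 < w.length
    · obtain ⟨hk2, p', h1, h2⟩ := (hs k hk p).1 hk'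
      rw [h1, ← h2]
    · rw [(hs k hk p).2 hk', hri, hgq]
  · intro p
    have := h4 (i p)
    rwa [hri] at this
  · intro p
    rw [hri, hgq]

end Pool.Agent.H68.LIN
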